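import Pool.Agent.H43.BZ.Stm4

/-! The arithmetic of the implosion exponents. -/

set_option autoImplicit false

namespace Pool.Agent.H43.BZ

theorem ARI : S_ARI := by
  intro d γ r hγ hd hr1 hr
  have hr0 : 0 < r := by linarith
  have key : 0 < (d : ℝ) ∧ ((d : ℝ) + γ) * (r - 1) < r := by
    rcases hd with ⟨rfl, h⟩ | ⟨rfl, h⟩
    · refine ⟨by norm_num, ?_⟩
      push_cast at hr ⊢
      have hs1 : (1 : ℝ) ≤ √2 := Real.one_le_sqrt.2 (by norm_num)
      rw [le_div_iff₀ (by linarith)] at hr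
      have h3 : r * 3 ≤ 4 := by nlinarith
      nlinarith
    · refine ⟨by norm_num, ?_⟩
      push_cast at hr ⊢
      have hs0 : (0 : ℝ) ≤ √3 := Real.sqrt_nonneg 3
      have hs2 : √3 * √3 = 3 := Real.mul_self_sqrt (by norm_num)
      have hs3 : √3 < 3 := by nlinarith
      rw [le_div_iff₀ (by linarith)] at hr
      have h3 : r ≤ 3 - √3 := by
        by_contra hcon
        push Not at hcon
        have h4 : (3 - √3) * (3 + √3) < r * (3 + √3) :=
          mul_lt_mul_of_pos_right hcon (by linarith)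
        nlinarith
      have h5 : (2 + √3) * r ≤ (2 + √3) * (3 - √3) :=
        mul_le_mul_of_nonneg_left h3 (by linarith)
      have h6 : (3 + γ) * (r - 1) < (3 + √3) * (r - 1) :=
        mul_lt_mul_of_pos_right (by linarith) (by linarith)
      nlinarith
  obtain ⟨hd0, hkey⟩ := key
  have hdg : 0 < (d : ℝ) + γ := by linarith
  have h1 : ((d : ℝ) + γ) * (1 - 1 / r) < 1 := by
    have h2 : (1 : ℝ) - 1 / r = (r - 1) / r := by field_simp
    rw [h2, ← mul_div_assoc, div_lt_one hr0]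
    exact hkey
  refine ⟨h1, fun _ => ⟨?_, ?_⟩⟩
  · rw [lt_div_iff₀ hdg]
    have h2 := mul_lt_mul_of_pos_left h1 hd0
    calc (d : ℝ) * (1 - 1 / r) * (d + γ) = d * ((d + γ) * (1 - 1 / r)) := by ring
      _ < d * 1 := h2
      _ = d := mul_one _
  · rw [lt_div_iff₀ hdg]
    have h2 := mul_lt_mul_of_pos_left h1 (show (0 : ℝ) < d + 2 by linarith)
    calc ((d : ℝ) + 2) * (1 - 1 / r) * (d + γ) = (d + 2) * ((d + γ) * (1 - 1 / r)) := by ring
      _ < (d + 2) * 1 := h2
      _ = d + 2 := mul_one _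

end Pool.Agent.H43.BZ
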