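import Pool.Agent.H43.BZ.Stm

/-! # The mirror average of the folded gain term -/

set_option autoImplicit false

open MeasureTheory Metric Set
open scoped RealInnerProductSpace ENNReal
open Pool.Agent.H43.BZ

namespace Pool.Agent.H348.BZ.G3

section basic

variable {V : Type} [NormedAddCommGroup V]

lemma P_pos (d : ℕ) (y : V) : 0 < P d y := by
  unfold P
  positivity

lemma chi_nonneg (v y : V) : 0 ≤ chi v y := by
  unfold chi
  split_ifs <;> norm_num

lemma chi_le_one (v y : V) : chi v y ≤ 1 := by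
  unfold chi
  split_ifs <;> norm_num

end basic

variable {d : ℕ}

/-- The reflection. -/
noncomputable abbrev R (y : E d) : E d ≃ₗᵢ[ℝ] E d := (Submodule.span ℝ {y}).reflection

lemma R_apply (y σ : E d) : R y σ = (2 * (⟪y, σ⟫ / ‖y‖ ^ 2)) • y - σ := by
  rw [R, Submodule.reflection_singleton_apply, mul_smul]
  simp [two_smul]

lemma inner_R (y σ : E d) (hy : y ≠ 0) : ⟪y, R y σ⟫ = ⟪y, σ⟫ := by
  have h : ‖y‖ ^ 2 ≠ 0 := pow_ne_zero 2 (norm_ne_zero_iff.2 hy)
  rw [R_apply, inner_sub_right, real_inner_smul_right, real_inner_self_eq_norm_sq]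
  field_simp
  ring

lemma cosa_R (y σ : E d) (hy : y ≠ 0) : cosa y (R y σ) = cosa y σ := by
  rw [cosa, cosa, inner_R y σ hy]

lemma Xv_R (y σ : E d) (hy : y ≠ 0) (hσ : ⟪y, σ⟫ ≠ 0) : Xv y (R y σ) = -Xv y σ := by
  have h : ‖y‖ ^ 2 ≠ 0 := pow_ne_zero 2 (norm_ne_zero_iff.2 hy)
  rw [Xv, Xv, inner_R y σ hy, R_apply, smul_sub, smul_smul]
  have h1 : ‖y‖ ^ 2 / ⟪y, σ⟫ * (2 * (⟪y, σ⟫ / ‖y‖ ^ 2)) = 2 := by
    field_simp
  rw [h1, two_smul]
  abel

lemma cosa_le (y σ : E d) (hσ : ‖σ‖ = 1) : cosa y σ ≤ 1 := by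
  rw [cosa]
  rcases eq_or_ne y 0 with h | h
  · rw [h]; simp
  · rw [div_le_one (norm_pos_iff.2 h)]
    have := real_inner_le_norm y σ
    rwa [hσ, mul_one] at this

lemma inner_eq (y σ : E d) (hy : y ≠ 0) : ⟪y, σ⟫ = cosa y σ * ‖y‖ := by
  rw [cosa, div_mul_cancel₀ _ (norm_ne_zero_iff.2 hy)]

lemma Xv_inner (y σ : E d) (hy : y ≠ 0) (hc : 0 < cosa y σ) : ⟪Xv y σ, y⟫ = 0 := by
  have h : 0 < ⟪y, σ⟫ := by
    rw [inner_eq y σ hy]
    exact mul_pos hc (norm_pos_iff.2 hy)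
  have hcomm : ⟪σ, y⟫ = ⟪y, σ⟫ := real_inner_comm _ _
  rw [Xv, inner_sub_left, real_inner_smul_left, hcomm, real_inner_self_eq_norm_sq,
    div_mul_cancel₀ _ h.ne', sub_self]

lemma Xv_norm_sq (y σ : E d) (hy : y ≠ 0) (hσ : ‖σ‖ = 1) (hc : 0 < cosa y σ) :
    ‖Xv y σ‖ ^ 2 = (1 - cosa y σ ^ 2) / cosa y σ ^ 2 * ‖y‖ ^ 2 := by
  have hy0 : ‖y‖ ≠ 0 := norm_ne_zero_iff.2 hy
  have hcomm : ⟪σ, y⟫ = ⟪y, σ⟫ := real_inner_comm _ _
  rw [Xv, norm_sub_sq_real, norm_smul, real_inner_smul_left, hcomm, hσ,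
    inner_eq y σ hy, mul_one, Real.norm_eq_abs, sq_abs]
  have hc0 := hc.ne'
  field_simp
  ring

/-- The tangent. -/
noncomputable def tt (c : ℝ) : ℝ := Real.sqrt ((1 - c ^ 2) / c ^ 2)

lemma tt_sq (c : ℝ) (hc : 0 < c) (hc1 : c ≤ 1) : tt c ^ 2 = (1 - c ^ 2) / c ^ 2 := by
  rw [tt, Real.sq_sqrt]
  apply div_nonneg _ (by positivity)
  nlinarith

lemma tt_nonneg (c : ℝ) : 0 ≤ tt c := Real.sqrt_nonneg _

lemma one_add_tt (c : ℝ) (hc : 0 < c) (hc1 : c ≤ 1) : 1 + tt c ^ 2 = (c ^ 2)⁻¹ := by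
  rw [tt_sq c hc hc1]
  have := hc.ne'
  field_simp
  ring

lemma Xv_norm (y σ : E d) (hy : y ≠ 0) (hσ : ‖σ‖ = 1) (hc : 0 < cosa y σ) :
    ‖Xv y σ‖ = tt (cosa y σ) * ‖y‖ := by
  have h1 := Xv_norm_sq y σ hy hσ hc
  rw [← tt_sq _ hc (cosa_le y σ hσ), ← mul_pow] at h1
  exact (pow_left_inj₀ (norm_nonneg _) (mul_nonneg (tt_nonneg _) (norm_nonneg _)) two_ne_zero).1 h1

lemma weight (c γ : ℝ) (hc : 0 < c) (hc1 : c ≤ 1) (hγ : γ ≤ 2) :
    c ^ (-((d : ℝ) + γ)) ≤ (1 + tt c ^ 2) ^ (d + 2) := by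
  rw [one_add_tt c hc hc1, inv_pow, ← pow_mul, Real.rpow_neg hc.le]
  apply inv_anti₀ (by positivity)
  rw [← Real.rpow_natCast]
  apply Real.rpow_le_rpow_of_exponent_ge hc hc1
  push_cast
  have : (0 : ℝ) ≤ d := Nat.cast_nonneg d
  linarith

/-- The denominator of the error term. -/
lemma er_le (C C' t L r x : ℝ) (hC : 0 ≤ C) (hCC : C ≤ C') (hx : t ^ 2 ≤ 1 - |x|) :
    C * er t L r ≤ C' * (min 1 ((1 - |x|) * L ^ 2) / (1 + (r / L) ^ 2)) := by
  have h0 : 0 ≤ min 1 (t ^ 2 * L ^ 2) := le_min zero_le_one (by positivity)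
  have h1 : min 1 (t ^ 2 * L ^ 2) ≤ min 1 ((1 - |x|) * L ^ 2) :=
    min_le_min_left _ (mul_le_mul_of_nonneg_right hx (by positivity))
  have h2 : er t L r ≤ min 1 ((1 - |x|) * L ^ 2) / (1 + (r / L) ^ 2) := by
    rw [er]
    exact div_le_div_of_nonneg_right h1 (by positivity)
  have h3 : 0 ≤ er t L r := by
    rw [er]
    positivity
  exact mul_le_mul hCC h2 h3 (hC.trans hCC)

lemma bnd_nonneg (C : ℝ) (hC : 0 ≤ C) (v w : E d) (c : ℝ) (hc : 0 < c) (hc1 : c ≤ 1) :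
    0 ≤ bnd C v w (2 * c ^ 2 - 1) := by
  have h1 : |2 * c ^ 2 - 1| ≤ 1 := by
    rw [abs_le]
    constructor <;> nlinarith
  have h2 : 0 ≤ min 1 ((1 - |2 * c ^ 2 - 1|) * (1 + ‖w‖) ^ 2) :=
    le_min zero_le_one (mul_nonneg (by linarith) (by positivity))
  have h3 : 0 ≤ C * (min 1 ((1 - |2 * c ^ 2 - 1|) * (1 + ‖w‖) ^ 2) /
      (1 + (‖v - w‖ / (1 + ‖w‖)) ^ 2)) := by positivity
  unfold bnd
  refine add_nonneg ?_ h3
  split_ifs
  · nlinarith [sq_nonneg c]
  · exact zero_le_one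
  · exact le_rfl

/-- The pointwise inequality. -/
lemma point (C₁ C₂ : ℝ) (hC₁ : 0 ≤ C₁) (hC₂ : 0 ≤ C₂)
    (h1 : ∀ (v w X : E d) (t : ℝ), 0 ≤ t → t ≤ 1 → ⟪X, v - w⟫ = 0 →
      ‖X‖ = t * ‖v - w‖ →
      (chi v (v + X) * P d (v + X) + chi v (v - X) * P d (v - X)) / 2 * (1 + t ^ 2) ^ (d + 2) ≤
        P d v * ((open Classical in if Slow v w then (1 + t ^ 2)⁻¹ else 1) +
          C₁ * er t (1 + ‖w‖) ‖v - w‖))
    (h2 : ∀ (v w X : E d) (t : ℝ), 1 ≤ t → ⟪X, v - w⟫ = 0 →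
      ‖X‖ = t * ‖v - w‖ → 4 * (1 + ‖w‖ ^ 2) < 1 + ‖v‖ ^ 2 →
      (P d (v + X) + P d (v - X)) / 2 * (1 + t ^ 2) ^ (d + 2) ≤
        P d v * ((open Classical in if Slow v w then (1 + t ^ 2)⁻¹ else 0) +
          C₂ * er t⁻¹ (1 + ‖w‖) ‖v - w‖))
    (γ : ℝ) (hγ : γ ≤ 2) (f : E d → ℝ) (hf : ∀ y, 0 ≤ f y) (N : ℝ)
    (hN : ∀ y, f y ≤ N * P d y) (v w : E d) (hvw : v ≠ w) (σ : E d) (hσ : ‖σ‖ = 1)
    (hc : 0 < cosa (v - w) σ) :
    cosa (v - w) σ ^ (-((d : ℝ) + γ)) *
      ((prof f v w σ + prof f v w (R (v - w) σ)) / 2) ≤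
    N * P d v * bnd (C₁ + C₂) v w (2 * cosa (v - w) σ ^ 2 - 1) := by
  classical
  have hy : v - w ≠ 0 := sub_ne_zero.2 hvw
  have hN0 : 0 ≤ N := by
    have h3 := (hf v).trans (hN v)
    by_contra hneg
    have := mul_neg_of_neg_of_pos (not_le.1 hneg) (P_pos d v)
    linarith
  have hin : ⟪v - w, σ⟫ ≠ 0 := by
    rw [inner_eq _ σ hy]
    exact mul_ne_zero hc.ne' (norm_ne_zero_iff.2 hy)
  have hXR := Xv_R (v - w) σ hy hin
  have hcR := cosa_R (v - w) σ hy
  have hX1 := Xv_inner (v - w) σ hy hc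
  have hX2 := Xv_norm (v - w) σ hy hσ hc
  have hc1 := cosa_le (v - w) σ hσ
  unfold prof
  rw [hXR, hcR]
  set c := cosa (v - w) σ with hcdef
  set X := Xv (v - w) σ with hX
  rw [← sub_eq_add_neg]
  have hb := bnd_nonneg (C₁ + C₂) (add_nonneg hC₁ hC₂) v w c hc hc1
  have hPv := P_pos d v
  have hR0 : 0 ≤ N * P d v * bnd (C₁ + C₂) v w (2 * c ^ 2 - 1) :=
    mul_nonneg (mul_nonneg hN0 hPv.le) hb
  have hw := weight (d := d) c γ hc hc1 hγ
  have hw0 : 0 ≤ c ^ (-((d : ℝ) + γ)) := Real.rpow_nonneg hc.le _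
  have ht2 := tt_sq c hc hc1
  have ht3 := one_add_tt c hc hc1
  have ht0 := tt_nonneg c
  have hcc : 0 < c ^ 2 := by positivity
  rcases lt_trichotomy 1 (2 * c ^ 2) with hcase | hcase | hcase
  · -- first case
    have hn : ¬ 2 * c ^ 2 < 1 := not_lt.2 hcase.le
    simp only [if_pos hcase, if_neg hn, add_zero]
    have ht : tt c ^ 2 ≤ 1 - |2 * c ^ 2 - 1| := by
      rw [abs_of_pos (by linarith), ht2, div_le_iff₀ hcc]
      have h4 : 0 ≤ 1 - c ^ 2 := by nlinarith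
      have h5 : 0 ≤ 2 * c ^ 2 - 1 := by linarith
      nlinarith [mul_nonneg h4 h5]
    have ht1 : tt c ≤ 1 := by
      have h3 : tt c ^ 2 ≤ 1 ^ 2 := by
        refine ht.trans ?_
        have := abs_nonneg (2 * c ^ 2 - 1)
        linarith
      exact (pow_le_pow_iff_left₀ ht0 zero_le_one two_ne_zero).1 h3
    have hk := h1 v w X (tt c) ht0 ht1 hX1 hX2
    have hA : (f (v + X) * chi v (v + X) + f (v - X) * chi v (v - X)) / 2 ≤
        N * ((chi v (v + X) * P d (v + X) + chi v (v - X) * P d (v - X)) / 2) := by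
      have h3 := mul_le_mul_of_nonneg_right (hN (v + X)) (chi_nonneg v (v + X))
      have h4 := mul_le_mul_of_nonneg_right (hN (v - X)) (chi_nonneg v (v - X))
      linarith
    have hA0 : 0 ≤ (f (v + X) * chi v (v + X) + f (v - X) * chi v (v - X)) / 2 := by
      have h3 := mul_nonneg (hf (v + X)) (chi_nonneg v (v + X))
      have h4 := mul_nonneg (hf (v - X)) (chi_nonneg v (v - X))
      linarith
    have hB : c ^ (-((d : ℝ) + γ)) *
        ((f (v + X) * chi v (v + X) + f (v - X) * chi v (v - X)) / 2) ≤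
        N * (P d v * ((if Slow v w then (1 + tt c ^ 2)⁻¹ else 1) +
          C₁ * er (tt c) (1 + ‖w‖) ‖v - w‖)) := by
      calc _ ≤ (1 + tt c ^ 2) ^ (d + 2) *
            (N * ((chi v (v + X) * P d (v + X) + chi v (v - X) * P d (v - X)) / 2)) :=
            mul_le_mul hw hA hA0 (by positivity)
        _ = N * ((chi v (v + X) * P d (v + X) + chi v (v - X) * P d (v - X)) / 2 *
            (1 + tt c ^ 2) ^ (d + 2)) := by ring
        _ ≤ _ := mul_le_mul_of_nonneg_left hk hN0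
    refine hB.trans ?_
    rw [mul_assoc]
    refine mul_le_mul_of_nonneg_left (mul_le_mul_of_nonneg_left ?_ hPv.le) hN0
    unfold bnd
    refine add_le_add ?_ (er_le C₁ (C₁ + C₂) _ _ _ _ hC₁ (by linarith) ht)
    by_cases hS : Slow v w
    · rw [if_pos hS, if_pos hS, ht3, inv_inv]
      linarith
    · rw [if_neg hS, if_neg hS, if_pos (by linarith)]
  · -- second case
    have hn1 : ¬ 1 < 2 * c ^ 2 := by rw [← hcase]; exact lt_irrefl 1
    have hn2 : ¬ 2 * c ^ 2 < 1 := by rw [← hcase]; exact lt_irrefl 1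
    simp only [if_neg hn1, if_neg hn2, add_zero, mul_zero, zero_div]
    exact hR0
  · -- third case
    have hn : ¬ 1 < 2 * c ^ 2 := not_lt.2 hcase.le
    simp only [if_pos hcase, if_neg hn, zero_add]
    by_cases hchi : 1 + ‖v‖ ^ 2 ≤ 4 * (1 + ‖w‖ ^ 2)
    · have h3 : chi v w = 1 := by rw [chi, if_pos hchi]
      rw [h3, sub_self, mul_zero, mul_zero, add_zero, zero_div, mul_zero]
      exact hR0
    · have h3 : chi v w = 0 := by rw [chi, if_neg hchi]
      rw [h3, sub_zero, mul_one, mul_one]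
      have h1c : 0 < 1 - c ^ 2 := by nlinarith
      have htpos : 0 < tt c ^ 2 := by rw [ht2]; positivity
      have ht : (tt c)⁻¹ ^ 2 ≤ 1 - |2 * c ^ 2 - 1| := by
        rw [abs_of_neg (by linarith), inv_pow, ht2, inv_div, div_le_iff₀ h1c]
        nlinarith
      have ht1 : 1 ≤ tt c := by
        have h3 : 1 ^ 2 ≤ tt c ^ 2 := by
          rw [ht2, le_div_iff₀ hcc]
          linarith
        exact (pow_le_pow_iff_left₀ zero_le_one ht0 two_ne_zero).1 h3
      have hk := h2 v w X (tt c) ht1 hX1 hX2 (not_le.1 hchi)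
      have hA : (f (v + X) + f (v - X)) / 2 ≤ N * ((P d (v + X) + P d (v - X)) / 2) := by
        have h3 := hN (v + X)
        have h4 := hN (v - X)
        linarith
      have hA0 : 0 ≤ (f (v + X) + f (v - X)) / 2 := by
        have h3 := hf (v + X)
        have h4 := hf (v - X)
        linarith
      have hB : c ^ (-((d : ℝ) + γ)) * ((f (v + X) + f (v - X)) / 2) ≤
          N * (P d v * ((if Slow v w then (1 + tt c ^ 2)⁻¹ else 0) +
            C₂ * er (tt c)⁻¹ (1 + ‖w‖) ‖v - w‖)) := by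
        calc _ ≤ (1 + tt c ^ 2) ^ (d + 2) * (N * ((P d (v + X) + P d (v - X)) / 2)) :=
              mul_le_mul hw hA hA0 (by positivity)
          _ = N * ((P d (v + X) + P d (v - X)) / 2 * (1 + tt c ^ 2) ^ (d + 2)) := by ring
          _ ≤ _ := mul_le_mul_of_nonneg_left hk hN0
      refine hB.trans ?_
      rw [mul_assoc]
      refine mul_le_mul_of_nonneg_left (mul_le_mul_of_nonneg_left ?_ hPv.le) hN0
      unfold bnd
      refine add_le_add ?_ (er_le C₂ (C₁ + C₂) _ _ _ _ hC₂ (by linarith) ht)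
      by_cases hS : Slow v w
      · rw [if_pos hS, if_pos hS, ht3, inv_inv]
        linarith
      · rw [if_neg hS, if_neg hS, if_neg (by linarith)]

/-- The integrand on the left. -/
noncomputable def Phi (γ : ℝ) (b : ℝ → ℝ) (f : E d → ℝ) (v w : E d) (σ : S d) : ℝ≥0∞ :=
  if 0 < cosa (v - w) (σ : E d) then
    ENNReal.ofReal (2 ^ (d - 1) * cosa (v - w) σ ^ (d - 2) *
      (b (2 * cosa (v - w) σ ^ 2 - 1) + b (1 - 2 * cosa (v - w) σ ^ 2)) *
      (cosa (v - w) σ ^ (-((d : ℝ) + γ)) * prof f v w σ)) else 0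

lemma Phi_meas (γ : ℝ) (b : ℝ → ℝ) (hb : Measurable b) (f : E d → ℝ) (hf : Measurable f)
    (v w : E d) : Measurable (Phi γ b f v w) := by
  have hσ : Measurable fun σ : S d => (σ : E d) := measurable_subtype_coe
  have hin : Measurable fun σ : S d => ⟪v - w, (σ : E d)⟫ := by
    have h1 : Continuous fun x : E d => ⟪v - w, x⟫ := continuous_const.inner continuous_id
    exact h1.measurable.comp hσ
  have hc : Measurable fun σ : S d => cosa (v - w) (σ : E d) := by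
    unfold cosa
    exact hin.div_const _
  have hX : Measurable fun σ : S d => v + Xv (v - w) (σ : E d) := by
    unfold Xv
    exact measurable_const.add (((measurable_const.div hin).smul hσ).sub measurable_const)
  have hchi : Measurable fun x : E d => chi v x := by
    unfold chi
    refine Measurable.ite ?_ measurable_const measurable_const
    exact measurableSet_le measurable_const (by fun_prop)
  have hp : Measurable fun σ : S d => prof f v w (σ : E d) := by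
    unfold prof
    refine (hf.comp hX).mul (Measurable.add ?_ ?_)
    · exact Measurable.ite (measurableSet_lt measurable_const (by fun_prop)) (hchi.comp hX)
        measurable_const
    · exact Measurable.ite (measurableSet_lt (by fun_prop) measurable_const) measurable_const
        measurable_const
  unfold Phi
  refine Measurable.ite (measurableSet_lt measurable_const hc) ?_ measurable_const
  refine ENNReal.measurable_ofReal.comp ?_
  refine Measurable.mul (Measurable.mul (by fun_prop) (Measurable.add ?_ ?_))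
    (Measurable.mul ?_ hp)
  · exact hb.comp (by fun_prop)
  · exact hb.comp (by fun_prop)
  · exact hc.pow_const _

lemma two_ofReal (A : ℝ) : 2 * ENNReal.ofReal A = ENNReal.ofReal (2 * A) := by
  rw [ENNReal.ofReal_mul (by norm_num)]
  simp

theorem g3 (h1 : S_KEY1) (h2 : S_KEY2) (hr : S_ROT) : S_G3 := by
  intro d _
  obtain ⟨C₁, hC₁, h1⟩ := h1 d
  obtain ⟨C₂, hC₂, h2⟩ := h2 d
  refine ⟨C₁ + C₂, add_nonneg hC₁ hC₂, ?_⟩
  intro γ _ hγ b hb hb0 f hf hf0 N hN v w hvw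
  have hN0 : 0 ≤ N := by
    have h3 := (hf0 v).trans (hN v)
    by_contra hneg
    have := mul_neg_of_neg_of_pos (not_le.1 hneg) (P_pos d v)
    linarith
  have hy : v - w ≠ 0 := sub_ne_zero.2 hvw
  have hm := Phi_meas γ b hb f hf v w
  have hrot := hr d (R (v - w)) (Phi γ b f v w) hm
  rw [← lintegral_const_mul' _ _ ENNReal.ofReal_ne_top]
  have key : 2 * ∫⁻ σ : S d, Phi γ b f v w σ ∂surf d ≤ 2 * ∫⁻ σ : S d,
      ENNReal.ofReal (N * P d v) * (if 0 < cosa (v - w) σ then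
        ENNReal.ofReal (2 ^ (d - 1) * cosa (v - w) σ ^ (d - 2) *
        (b (2 * cosa (v - w) σ ^ 2 - 1) + b (1 - 2 * cosa (v - w) σ ^ 2)) *
        bnd (C₁ + C₂) v w (2 * cosa (v - w) σ ^ 2 - 1)) else 0) ∂surf d := by
    rw [two_mul]
    nth_rewrite 2 [← hrot]
    rw [← lintegral_add_left hm, ← lintegral_const_mul' _ _ ENNReal.ofNat_ne_top]
    refine lintegral_mono fun σ => ?_
    have hσ : ‖(σ : E d)‖ = 1 := norm_eq_of_mem_sphere σ
    unfold Phi
    simp only []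
    rw [cosa_R _ _ hy]
    by_cases hc : 0 < cosa (v - w) (σ : E d)
    · rw [if_pos hc, if_pos hc, if_pos hc]
      have hW : 0 ≤ 2 ^ (d - 1) * cosa (v - w) (σ : E d) ^ (d - 2) *
          (b (2 * cosa (v - w) (σ : E d) ^ 2 - 1) + b (1 - 2 * cosa (v - w) (σ : E d) ^ 2)) := by
        have := hb0 (2 * cosa (v - w) (σ : E d) ^ 2 - 1)
        have := hb0 (1 - 2 * cosa (v - w) (σ : E d) ^ 2)
        positivity
      have hk0 : 0 ≤ cosa (v - w) (σ : E d) ^ (-((d : ℝ) + γ)) := Real.rpow_nonneg hc.le _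
      have hprof : ∀ τ : E d, 0 ≤ prof f v w τ := by
        intro τ
        unfold prof
        refine mul_nonneg (hf0 _) (add_nonneg ?_ ?_)
        · split_ifs
          · exact chi_nonneg _ _
          · exact le_rfl
        · split_ifs
          · exact sub_nonneg.2 (chi_le_one _ _)
          · exact le_rfl
      have hp := point C₁ C₂ hC₁ hC₂ (h1 (E d)) (h2 (E d)) γ hγ f hf0 N hN v w hvw σ hσ hc
      rw [← ENNReal.ofReal_add (mul_nonneg hW (mul_nonneg hk0 (hprof _)))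
        (mul_nonneg hW (mul_nonneg hk0 (hprof _))),
        ← ENNReal.ofReal_mul (mul_nonneg hN0 (P_pos d v).le), two_ofReal]
      apply ENNReal.ofReal_le_ofReal
      have h3 := mul_le_mul_of_nonneg_left hp hW
      linarith
    · rw [if_neg hc, if_neg hc, if_neg hc]
      simp
  exact (ENNReal.mul_le_mul_iff_right (by norm_num) (by norm_num)).1 key

end Pool.Agent.H348.BZ.G3
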